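import Pool.Agent.helper86.OF.SpecX

/-!
# of:WDI (helper60): distribution of the edges of `W`
-/

set_option linter.unusedSectionVars false

open scoped BigOperators

namespace Pool.Agent.OF

noncomputable section

open Classical

variable {V : Type} [Fintype V]

/-- the edges -/
def WDI_ed (W : SimpleGraph V) : Finset (Sym2 V) := Finset.univ.filter fun e => e ∈ W.edgeSet

theorem WDI_mem {W : SimpleGraph V} {v w : V} : s(v, w) ∈ WDI_ed W ↔ W.Adj v w := by
  simp [WDI_ed]

/-- the edges inside `S` -/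
def WDI_in (W : SimpleGraph V) (S : Finset V) : Finset (Sym2 V) :=
  (WDI_ed W).filter fun e => ∀ v ∈ e, v ∈ S

/-- the edges which leave `X` -/
def WDI_out (W : SimpleGraph V) (X : Finset V) : Finset (Sym2 V) :=
  (WDI_ed W).filter fun e => (∃ v ∈ e, v ∈ X) ∧ ∃ v ∈ e, v ∉ X

theorem WDI_dgs (W : SimpleGraph V) (S : Finset V) (v : V) :
    dgs W S v = ((WDI_ed W).filter fun e => ∃ w ∈ S, e = s(v, w)).card := by
  unfold dgs
  apply Finset.card_bij (fun w _ => s(v, w))
  · intro w hw
    rw [Finset.mem_filter] at hw ⊢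
    exact ⟨WDI_mem.2 hw.2, w, hw.1, rfl⟩
  · intro w _ w' _ h
    exact Sym2.congr_right.1 h
  · intro e he
    rw [Finset.mem_filter] at he
    obtain ⟨he, w, hw, rfl⟩ := he
    exact ⟨w, Finset.mem_filter.2 ⟨hw, WDI_mem.1 he⟩, rfl⟩

theorem WDI_dc (F : Finset (Sym2 V)) (T : Finset V) :
    ∑ e ∈ F, (T.filter fun v => v ∈ e).card = ∑ v ∈ T, (F.filter fun e => v ∈ e).card := by
  simp only [Finset.card_filter]
  exact Finset.sum_comm

theorem WDI_two {W : SimpleGraph V} {e : Sym2 V} (he : e ∈ WDI_ed W) (T : Finset V)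
    (hT : ∀ v ∈ e, v ∈ T) : (T.filter fun v => v ∈ e).card = 2 := by
  induction e using Sym2.ind with
  | _ a b =>
    have hab : a ≠ b := (WDI_mem.1 he).ne
    have h : (T.filter fun v => v ∈ s(a, b)) = {a, b} := by
      ext v
      simp only [Finset.mem_filter, Sym2.mem_iff, Finset.mem_insert, Finset.mem_singleton]
      constructor
      · exact fun h => h.2
      · intro h
        exact ⟨hT v (Sym2.mem_iff.2 h), h⟩
    rw [h, Finset.card_pair hab]

theorem WDI_le_two (e : Sym2 V) (T : Finset V) : (T.filter fun v => v ∈ e).card ≤ 2 := by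
  induction e using Sym2.ind with
  | _ a b =>
    have h : (T.filter fun v => v ∈ s(a, b)) ⊆ {a, b} := by
      intro v hv
      simp only [Finset.mem_filter, Sym2.mem_iff, Finset.mem_insert, Finset.mem_singleton] at hv ⊢
      exact hv.2
    exact (Finset.card_le_card h).trans Finset.card_le_two

theorem WDI_zero (e : Sym2 V) (T : Finset V) (hT : ∀ v ∈ e, v ∉ T) :
    (T.filter fun v => v ∈ e).card = 0 := by
  rw [Finset.card_eq_zero, Finset.filter_eq_empty_iff]
  intro v hv hve
  exact hT v hve hv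

theorem WDI_one {e : Sym2 V} (X : Finset V) (h1 : ∃ v ∈ e, v ∈ X) (h2 : ∃ v ∈ e, v ∉ X) :
    (X.filter fun v => v ∈ e).card = 1 := by
  obtain ⟨a, ha, haX⟩ := h1
  obtain ⟨b, rfl⟩ := ha
  have hb : b ∉ X := by
    obtain ⟨c, hc, hcX⟩ := h2
    rcases Sym2.mem_iff.1 hc with rfl | rfl
    · exact absurd haX hcX
    · exact hcX
  have h : (X.filter fun v => v ∈ s(a, b)) = {a} := by
    ext v
    simp only [Finset.mem_filter, Sym2.mem_iff, Finset.mem_singleton]
    constructor
    · rintro ⟨hv, rfl | rfl⟩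
      · rfl
      · exact absurd hv hb
    · rintro rfl
      exact ⟨haX, Or.inl rfl⟩
  rw [h, Finset.card_singleton]

theorem WDI_ep_in (W : SimpleGraph V) (S : Finset V) : ep W S S = 2 * (WDI_in W S).card := by
  have h1 : ep W S S = ∑ v ∈ S, ((WDI_in W S).filter fun e => v ∈ e).card := by
    unfold ep
    apply Finset.sum_congr rfl
    intro v hv
    rw [WDI_dgs]
    congr 1
    ext e
    simp only [WDI_in, Finset.mem_filter]
    constructor
    · rintro ⟨he, w, hw, rfl⟩
      refine ⟨⟨he, ?_⟩, Sym2.mem_mk_left v w⟩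
      intro u hu
      rcases Sym2.mem_iff.1 hu with rfl | rfl
      · exact hv
      · exact hw
    · rintro ⟨⟨he, h⟩, hve⟩
      obtain ⟨w, rfl⟩ := hve
      exact ⟨he, w, h w (Sym2.mem_mk_right v w), rfl⟩
  rw [h1, ← WDI_dc, Finset.sum_congr (s₁ := WDI_in W S) rfl
    (fun e he => WDI_two (Finset.mem_filter.1 he).1 S (Finset.mem_filter.1 he).2),
    Finset.sum_const, smul_eq_mul, mul_comm]

theorem WDI_ep_out (W : SimpleGraph V) (X : Finset V) : ep W X Xᶜ = (WDI_out W X).card := by
  have h1 : ep W X Xᶜ = ∑ v ∈ X, ((WDI_out W X).filter fun e => v ∈ e).card := by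
    unfold ep
    apply Finset.sum_congr rfl
    intro v hv
    rw [WDI_dgs]
    congr 1
    ext e
    simp only [WDI_out, Finset.mem_filter]
    constructor
    · rintro ⟨he, w, hw, rfl⟩
      exact ⟨⟨he, ⟨v, Sym2.mem_mk_left v w, hv⟩, w, Sym2.mem_mk_right v w,
        Finset.mem_compl.1 hw⟩, Sym2.mem_mk_left v w⟩
    · rintro ⟨⟨he, -, b, hb, hbX⟩, hve⟩
      obtain ⟨w, rfl⟩ := hve
      refine ⟨he, w, ?_, rfl⟩
      rw [Finset.mem_compl]
      rcases Sym2.mem_iff.1 hb with rfl | rfl
      · exact absurd hv hbX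
      · exact hbX
  rw [h1, ← WDI_dc, Finset.sum_congr (s₁ := WDI_out W X) rfl
    (fun e he => WDI_one X (Finset.mem_filter.1 he).2.1 (Finset.mem_filter.1 he).2.2),
    Finset.sum_const, smul_eq_mul, mul_one]

theorem WDI_ed_card (W : SimpleGraph V) : 2 * (WDI_ed W).card = ∑ v, dg W v := by
  have h := WDI_ep_in W Finset.univ
  have h2 : WDI_in W Finset.univ = WDI_ed W := by
    unfold WDI_in
    rw [Finset.filter_true_of_mem]
    intro e _ v _
    exact Finset.mem_univ v
  rw [h2] at h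
  exact h.symm

/-! ### partners -/

theorem WDI_ptn {G : SimpleGraph V} {D : ℕ} {c : Sym2 V → ℕ} (h : PEC G D c) {i : ℕ} {v w : V}
    (hvw : G.Adj v w) (hc : c s(v, w) = i) : ptn G c i v = w := by
  unfold ptn
  have hex : ∃ w, G.Adj v w ∧ c s(v, w) = i := ⟨w, hvw, hc⟩
  rw [dif_pos hex]
  exact h.2 v _ w hex.choose_spec.1 hvw (by rw [hex.choose_spec.2, hc])

theorem WDI_ptn_ne {G : SimpleGraph V} {c : Sym2 V → ℕ} {i : ℕ} {v : V} (h : ptn G c i v ≠ v) :
    G.Adj v (ptn G c i v) ∧ c s(v, ptn G c i v) = i := by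
  by_cases hex : ∃ w, G.Adj v w ∧ c s(v, w) = i
  · have e : ptn G c i v = hex.choose := dif_pos hex
    rw [e]
    exact hex.choose_spec
  · exact absurd (dif_neg hex) h

theorem WDI_cov {G : SimpleGraph V} {D : ℕ} {c : Sym2 V → ℕ} (h : PEC G D c) (i : ℕ) (T : Finset V) :
    (T.filter fun v => ptn G c i v ≠ v).card =
      ∑ e ∈ (WDI_ed G).filter (fun e => c e = i), (T.filter fun v => v ∈ e).card := by
  rw [WDI_dc, Finset.card_filter]
  apply Finset.sum_congr rfl
  intro v _
  by_cases hv : ptn G c i v ≠ v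
  · rw [if_pos hv]
    obtain ⟨h1, h2⟩ := WDI_ptn_ne hv
    have h3 : (((WDI_ed G).filter fun e => c e = i).filter fun e => v ∈ e) =
        {s(v, ptn G c i v)} := by
      ext e
      simp only [Finset.mem_filter, Finset.mem_singleton]
      constructor
      · rintro ⟨⟨he, hc⟩, hve⟩
        obtain ⟨w, rfl⟩ := hve
        rw [WDI_ptn h (WDI_mem.1 he) hc]
      · rintro rfl
        exact ⟨⟨WDI_mem.2 h1, h2⟩, Sym2.mem_mk_left _ _⟩
    rw [h3, Finset.card_singleton]
  · rw [if_neg hv]
    symm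
    rw [Finset.card_eq_zero, Finset.filter_eq_empty_iff]
    intro e he hve
    rw [Finset.mem_filter] at he
    obtain ⟨w, rfl⟩ := hve
    apply hv
    rw [WDI_ptn h (WDI_mem.1 he.1) he.2]
    exact (WDI_mem.1 he.1).ne'

theorem WDI_mat {G : SimpleGraph V} {D : ℕ} {c : Sym2 V → ℕ} (h : PEC G D c) (i : ℕ) :
    MatIn G (ptn G c i) := by
  constructor
  · intro v
    by_cases hv : ptn G c i v = v
    · rw [hv, hv]
    · obtain ⟨h1, h2⟩ := WDI_ptn_ne hv
      exact WDI_ptn h h1.symm (by rw [Sym2.eq_swap]; exact h2)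
  · intro v hv
    exact (WDI_ptn_ne hv).1

/-! ### the assignment -/

theorem WDI_mf {α : Type} {p : α → Prop} {inst : DecidablePred p} {s : Finset α} {a : α}
    (h : a ∈ @Finset.filter α p inst s) : a ∈ s ∧ p a := (@Finset.mem_filter α p inst s a).1 h

theorem WDI_fm {α : Type} {p : α → Prop} {inst : DecidablePred p} {s : Finset α} {a : α}
    (h : a ∈ s ∧ p a) : a ∈ @Finset.filter α p inst s := (@Finset.mem_filter α p inst s a).2 h

theorem WDI_emb (s t : Finset (Sym2 V)) (h : s.card ≤ t.card) : ∃ f : Sym2 V → Sym2 V,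
    (∀ e ∈ s, f e ∈ t) ∧ (∀ e ∈ s, ∀ e' ∈ s, f e = f e' → e = e') ∧ ∀ e, e ∉ s → f e = e := by
  obtain ⟨g⟩ : Nonempty (s ↪ t) := by
    apply Function.Embedding.nonempty_of_card_le
    rw [Fintype.card_coe, Fintype.card_coe]
    exact h
  refine ⟨fun e => if h : e ∈ s then (g ⟨e, h⟩ : Sym2 V) else e, ?_, ?_, ?_⟩
  · intro e he
    simp only [dif_pos he]
    exact (g ⟨e, he⟩).2
  · intro e he e' he' h
    simp only [dif_pos he, dif_pos he'] at h
    have := g.injective (Subtype.ext h)
    exact congrArg Subtype.val this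
  · intro e he
    simp only [dif_neg he]

theorem WDI_inP_inR {W : SimpleGraph V} {P R : Finset V} (hPR : Disjoint P R) {e : Sym2 V}
    (h : e ∈ WDI_in W P) (h' : e ∈ WDI_in W R) : False := by
  induction e using Sym2.ind with
  | _ a b =>
    have h1 := (Finset.mem_filter.1 h).2 a (Sym2.mem_mk_left a b)
    have h2 := (Finset.mem_filter.1 h').2 a (Sym2.mem_mk_left a b)
    exact (Finset.disjoint_left.1 hPR) h1 h2

/-- the number of ends of an edge in `P` and in `R` -/
theorem WDI_diff {W : SimpleGraph V} {P R : Finset V} (hPR : Disjoint P R)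
    (hin : ∀ v v', W.Adj v v' → v ∈ P → v' ∉ R) {e : Sym2 V} (he : e ∈ WDI_ed W) :
    |(((P.filter fun v => v ∈ e).card : ℤ) - (R.filter fun v => v ∈ e).card) -
      (2 * (if e ∈ WDI_in W P then 1 else 0) - 2 * (if e ∈ WDI_in W R then 1 else 0))| ≤
      if e ∈ WDI_out W (P ∪ R) then 1 else 0 := by
  by_cases ho : e ∈ WDI_out W (P ∪ R)
  · have h1 := WDI_one (P ∪ R) (Finset.mem_filter.1 ho).2.1 (Finset.mem_filter.1 ho).2.2
    rw [Finset.filter_union, Finset.card_union_of_disjoint
      (Finset.disjoint_filter_filter hPR)] at h1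
    obtain ⟨b, hb, hbn⟩ := (Finset.mem_filter.1 ho).2.2
    have hP : e ∉ WDI_in W P := fun h => hbn (Finset.mem_union_left _ ((Finset.mem_filter.1 h).2 b hb))
    have hR : e ∉ WDI_in W R := fun h =>
      hbn (Finset.mem_union_right _ ((Finset.mem_filter.1 h).2 b hb))
    rw [if_pos ho, if_neg hP, if_neg hR, abs_le]
    omega
  · rw [if_neg ho]
    by_cases hP : e ∈ WDI_in W P
    · have hR : e ∉ WDI_in W R := fun h => WDI_inP_inR hPR hP h
      have h1 := WDI_two he P (Finset.mem_filter.1 hP).2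
      have h2 := WDI_zero e R fun v hv hvR =>
        Finset.disjoint_left.1 hPR ((Finset.mem_filter.1 hP).2 v hv) hvR
      rw [if_pos hP, if_neg hR, h1, h2]
      norm_num
    · by_cases hR : e ∈ WDI_in W R
      · have h1 := WDI_two he R (Finset.mem_filter.1 hR).2
        have h2 := WDI_zero e P fun v hv hvP =>
          Finset.disjoint_left.1 hPR hvP ((Finset.mem_filter.1 hR).2 v hv)
        rw [if_neg hP, if_pos hR, h1, h2]
        norm_num
      · have h0 : ∀ v ∈ e, v ∉ P ∪ R := by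
          intro v hv hvX
          obtain ⟨u, rfl⟩ := hv
          have hu : u ∈ P ∪ R := by
            by_contra hu
            exact ho (Finset.mem_filter.2 ⟨he, ⟨v, Sym2.mem_mk_left v u, hvX⟩, u,
              Sym2.mem_mk_right v u, hu⟩)
          have hadj := WDI_mem.1 he
          rcases Finset.mem_union.1 hvX with hv | hv <;> rcases Finset.mem_union.1 hu with hu | hu
          · apply hP
            refine Finset.mem_filter.2 ⟨he, ?_⟩
            intro x hx
            rcases Sym2.mem_iff.1 hx with rfl | rfl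
            · exact hv
            · exact hu
          · exact hin v u hadj hv hu
          · exact hin u v hadj.symm hu hv
          · apply hR
            refine Finset.mem_filter.2 ⟨he, ?_⟩
            intro x hx
            rcases Sym2.mem_iff.1 hx with rfl | rfl
            · exact hv
            · exact hu
        have h1 := WDI_zero e P fun v hv hvP => h0 v hv (Finset.mem_union_left _ hvP)
        have h2 := WDI_zero e R fun v hv hvR => h0 v hv (Finset.mem_union_right _ hvR)
        rw [if_neg hP, if_neg hR, h1, h2]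
        norm_num

theorem WDI_star (W : SimpleGraph V) (v : V) :
    ((WDI_ed W).filter fun e => v ∈ e).card = dg W v := by
  have h := WDI_dgs W Finset.univ v
  unfold dg
  rw [h]
  congr 1
  ext e
  simp only [Finset.mem_filter, Finset.mem_univ, true_and]
  constructor
  · rintro ⟨he, w, rfl⟩
    exact ⟨he, w, rfl⟩
  · rintro ⟨he, w, rfl⟩
    exact ⟨he, w, rfl⟩

theorem WDI_core (hG : GRA_stmt) (W : SimpleGraph V) (P R : Finset V) (hPR : Disjoint P R)
    (hin : ∀ v v', W.Adj v v' → v ∈ P → v' ∉ R)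
    (hle : (WDI_in W P).card ≤ (WDI_in W R).card) (w : ℕ) (Dm : ℕ → V → V) (d b : ℕ)
    (hd : ∀ v, dg W v ≤ d)
    (hb : ∀ v, ((Finset.range w).filter fun i => Dm i v ≠ v).card ≤ b)
    (hw : 4 * d + 4 * b + (w / 10 + 1) < w) :
    ∃ c : Sym2 V → ℕ, PEC W w c ∧ (∀ e ∈ WDI_ed W, ∀ v ∈ e, Dm (c e) v = v) ∧
      (∀ i < w, ((WDI_ed W).filter fun e => c e = i).card ≤
        2 * (2 * (10 * (WDI_ed W).card / w + 1) +
          (10 * ((WDI_in W R).card - (WDI_in W P).card) / w + 1) +
          (10 * (WDI_out W (P ∪ R)).card / w + 1))) ∧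
      ∀ i < w, |((P.filter fun v => ptn W c i v ≠ v).card : ℤ) -
        (R.filter fun v => ptn W c i v ≠ v).card| ≤
        2 * (10 * ((WDI_in W R).card - (WDI_in W P).card : ℕ) / w + 1 : ℕ) +
          (10 * (WDI_out W (P ∪ R)).card / w + 1 : ℕ) := by
  have hw0 : 0 < w := by omega
  obtain ⟨rep, hr1, hr2, hr3⟩ := WDI_emb (WDI_in W P) (WDI_in W R) hle
  obtain ⟨I, hI⟩ : ∃ I, I = (WDI_ed W).filter fun e => e ∉ WDI_in W P := ⟨_, rfl⟩
  have hRI : ∀ e ∈ WDI_in W R, e ∈ I := by
    intro e he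
    rw [hI, Finset.mem_filter]
    exact ⟨(Finset.mem_filter.1 he).1, fun h => WDI_inP_inR hPR h he⟩
  have hrepI : ∀ e ∈ WDI_ed W, rep e ∈ I := by
    intro e he
    by_cases h : e ∈ WDI_in W P
    · exact hRI _ (hr1 e h)
    · rw [hr3 e h, hI, Finset.mem_filter]
      exact ⟨he, h⟩
  have hIrep : ∀ x ∈ I, rep x = x := by
    intro x hx
    rw [hI, Finset.mem_filter] at hx
    exact hr3 x hx.2
  -- vertices of an item
  obtain ⟨vs, hvs⟩ : ∃ vs : Sym2 V → Finset V, vs = fun x =>
    Finset.univ.filter fun v => ∃ e ∈ WDI_ed W, rep e = x ∧ v ∈ e := ⟨_, rfl⟩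
  have hmvs : ∀ x v, v ∈ vs x ↔ ∃ e ∈ WDI_ed W, rep e = x ∧ v ∈ e := by
    intro x v
    rw [hvs]
    simp only [Finset.mem_filter, Finset.mem_univ, true_and]
  have hvs4 : ∀ x, (vs x).card ≤ 4 := by
    intro x
    have h1 : ((WDI_ed W).filter fun e => rep e = x).card ≤ 2 := by
      have h2 : ((WDI_ed W).filter fun e => rep e = x) ⊆
          {x} ∪ (WDI_in W P).filter fun e => rep e = x := by
        intro e he
        rw [Finset.mem_filter] at he
        by_cases h : e ∈ WDI_in W P
        · exact Finset.mem_union_right _ (Finset.mem_filter.2 ⟨h, he.2⟩)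
        · apply Finset.mem_union_left
          rw [Finset.mem_singleton, ← he.2, hr3 e h]
      have h3 : ((WDI_in W P).filter fun e => rep e = x).card ≤ 1 := by
        rw [Finset.card_le_one]
        intro a ha b hb
        rw [Finset.mem_filter] at ha hb
        exact hr2 a ha.1 b hb.1 (ha.2.trans hb.2.symm)
      refine (Finset.card_le_card h2).trans ((Finset.card_union_le _ _).trans ?_)
      rw [Finset.card_singleton]
      omega
    have h4 : vs x ⊆ ((WDI_ed W).filter fun e => rep e = x).biUnion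
        fun e => Finset.univ.filter fun v => v ∈ e := by
      intro v hv
      obtain ⟨e, he, h5, h6⟩ := (hmvs x v).1 hv
      rw [Finset.mem_biUnion]
      exact ⟨e, Finset.mem_filter.2 ⟨he, h5⟩, Finset.mem_filter.2 ⟨Finset.mem_univ _, h6⟩⟩
    have h7 := (Finset.card_le_card h4).trans (Finset.card_biUnion_le_card_mul _ _ 2
      (fun e _ => WDI_le_two e Finset.univ))
    omega
  obtain ⟨typ, htyp⟩ : ∃ typ : Sym2 V → ℕ, typ = fun x =>
    if x ∈ (WDI_in W P).image rep then 0 else if x ∈ WDI_in W R then 1 else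
      if x ∈ WDI_out W (P ∪ R) then 2 else 3 := ⟨_, rfl⟩
  have htyp4 : ∀ x, typ x < 4 := by
    intro x
    rw [htyp]
    dsimp only
    split_ifs <;> omega
  obtain ⟨cnt, hcnt⟩ : ∃ cnt : ℕ → ℕ, cnt = fun τ => (I.filter fun x => typ x = τ).card :=
    ⟨_, rfl⟩
  have ht1 : ∀ x, typ x = 1 ↔ x ∉ (WDI_in W P).image rep ∧ x ∈ WDI_in W R := by
    intro x
    rw [htyp]
    dsimp only
    by_cases h1 : x ∈ (WDI_in W P).image rep
    · rw [if_pos h1]
      exact ⟨fun h => absurd h (by omega), fun h => absurd h1 h.1⟩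
    · rw [if_neg h1]
      by_cases h2 : x ∈ WDI_in W R
      · rw [if_pos h2]
        exact ⟨fun _ => ⟨h1, h2⟩, fun _ => rfl⟩
      · rw [if_neg h2]
        by_cases h3 : x ∈ WDI_out W (P ∪ R)
        · rw [if_pos h3]
          exact ⟨fun h => absurd h (by omega), fun h => absurd h.2 h2⟩
        · rw [if_neg h3]
          exact ⟨fun h => absurd h (by omega), fun h => absurd h.2 h2⟩
  have ht2 : ∀ x, typ x = 2 ↔ x ∉ (WDI_in W P).image rep ∧ x ∉ WDI_in W R ∧
      x ∈ WDI_out W (P ∪ R) := by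
    intro x
    rw [htyp]
    dsimp only
    by_cases h1 : x ∈ (WDI_in W P).image rep
    · rw [if_pos h1]
      exact ⟨fun h => absurd h (by omega), fun h => absurd h1 h.1⟩
    · rw [if_neg h1]
      by_cases h2 : x ∈ WDI_in W R
      · rw [if_pos h2]
        exact ⟨fun h => absurd h (by omega), fun h => absurd h2 h.2.1⟩
      · rw [if_neg h2]
        by_cases h3 : x ∈ WDI_out W (P ∪ R)
        · rw [if_pos h3]
          exact ⟨fun _ => ⟨h1, h2, h3⟩, fun _ => rfl⟩
        · rw [if_neg h3]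
          exact ⟨fun h => absurd h (by omega), fun h => absurd h.2.2 h3⟩
  have : Nonempty (Fin w) := ⟨⟨0, hw0⟩⟩
  obtain ⟨a, -, ha1, ha2, ha3, -⟩ := hG (Sym2 V) (Fin w) Unit I Finset.univ typ
    (fun x y => ∃ v, v ∈ vs x ∧ v ∈ vs y) (fun x q => ∃ v ∈ vs x, Dm q v ≠ v) (fun _ _ => ∅)
    (fun τ => 10 * cnt τ / w + 1) (fun _ => w / 10 + 1) (4 * d) (4 * b) 0 0 1 0
    (by
      intro x _
      refine (Finset.card_le_card (t := ((vs x).biUnion fun v =>
        (WDI_ed W).filter fun e => v ∈ e).image rep) ?_).trans (Finset.card_image_le.trans ?_)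
      · intro y hy
        replace hy := WDI_mf hy
        obtain ⟨v, hv1, hv2⟩ : ∃ v, v ∈ vs x ∧ v ∈ vs y := by
          rcases hy.2.2 with h | ⟨v, h1, h2⟩
          · exact h
          · exact ⟨v, h2, h1⟩
        obtain ⟨e, he, h3, h4⟩ := (hmvs y v).1 hv2
        rw [Finset.mem_image]
        refine ⟨e, ?_, h3⟩
        rw [Finset.mem_biUnion]
        exact ⟨v, hv1, Finset.mem_filter.2 ⟨he, h4⟩⟩
      refine (Finset.card_biUnion_le_card_mul _ _ d (fun v _ => ?_)).trans
        (Nat.mul_le_mul_right d (hvs4 x))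
      rw [WDI_star]
      exact hd v)
    (by
      intro x _
      refine (Finset.card_le_card (t := (vs x).biUnion fun v =>
        Finset.univ.filter fun q : Fin w => Dm q v ≠ v) ?_).trans ?_
      · intro q hq
        obtain ⟨-, v, hv, h⟩ := WDI_mf hq
        rw [Finset.mem_biUnion]
        exact ⟨v, hv, Finset.mem_filter.2 ⟨Finset.mem_univ _, h⟩⟩
      refine (Finset.card_biUnion_le_card_mul _ _ b (fun v _ => ?_)).trans
        (Nat.mul_le_mul_right b (hvs4 x))
      refine le_trans ?_ (hb v)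
      apply Finset.card_le_card_of_injOn (fun q : Fin w => (q : ℕ))
      · intro q hq
        have hq' := (Finset.mem_filter.1 (Finset.mem_coe.1 hq)).2
        exact Finset.mem_coe.2 (Finset.mem_filter.2 ⟨Finset.mem_range.2 q.2, hq'⟩)
      · intro q _ q' _ h
        exact Fin.ext h)
    (by
      intro τ
      have h1 : w ≤ 10 * (w / 10 + 1) := by omega
      have h2 : 10 * cnt τ < w * (10 * cnt τ / w + 1) := by
        have := Nat.lt_mul_div_succ (10 * cnt τ) hw0
        exact this
      have h3 : (I.filter fun x => typ x = τ).card = cnt τ := by rw [hcnt]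
      rw [h3]
      have h4 : w * (10 * cnt τ / w + 1) ≤ 10 * (w / 10 + 1) * (10 * cnt τ / w + 1) :=
        Nat.mul_le_mul_right _ h1
      have h5 : 10 * cnt τ < 10 * ((w / 10 + 1) * (10 * cnt τ / w + 1)) := by
        calc 10 * cnt τ < w * (10 * cnt τ / w + 1) := h2
          _ ≤ 10 * (w / 10 + 1) * (10 * cnt τ / w + 1) := h4
          _ = 10 * ((w / 10 + 1) * (10 * cnt τ / w + 1)) := by ring
      omega)
    (by
      intro x _ q _
      simp)
    (by
      intro x _ v
      simp)
    (by norm_num) (by simp)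
    (by
      intro x _
      rw [Finset.card_univ, Fintype.card_fin]
      omega)
  obtain ⟨c, hc⟩ : ∃ c : Sym2 V → ℕ, c = fun e => (a (rep e) : ℕ) := ⟨_, rfl⟩
  have hce : ∀ e, c e = (a (rep e) : ℕ) := fun e => by rw [hc]
  have hPEC : PEC W w c := by
    constructor
    · intro v u _
      rw [hce]
      exact (a _).2
    · intro v u u' h1 h2 h3
      by_contra hne
      have he : s(v, u) ≠ s(v, u') := fun h => hne (Sym2.congr_right.1 h)
      rw [hce, hce] at h3
      by_cases hr : rep s(v, u) = rep s(v, u')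
      · by_cases hp : s(v, u) ∈ WDI_in W P
        · by_cases hp' : s(v, u') ∈ WDI_in W P
          · exact he (hr2 _ hp _ hp' hr)
          · have h4 := hr1 _ hp
            rw [hr, hr3 _ hp'] at h4
            exact Finset.disjoint_left.1 hPR ((Finset.mem_filter.1 hp).2 v (Sym2.mem_mk_left _ _))
              ((Finset.mem_filter.1 h4).2 v (Sym2.mem_mk_left _ _))
        · by_cases hp' : s(v, u') ∈ WDI_in W P
          · have h4 := hr1 _ hp'
            rw [← hr, hr3 _ hp] at h4
            exact Finset.disjoint_left.1 hPR ((Finset.mem_filter.1 hp').2 v (Sym2.mem_mk_left _ _))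
              ((Finset.mem_filter.1 h4).2 v (Sym2.mem_mk_left _ _))
          · rw [hr3 _ hp, hr3 _ hp'] at hr
            exact he hr
      · refine ha1 _ (hrepI _ (WDI_mem.2 h1)) _ (hrepI _ (WDI_mem.2 h2)) hr ⟨v, ?_, ?_⟩
          (Fin.ext h3)
        · exact (hmvs _ _).2 ⟨_, WDI_mem.2 h1, rfl, Sym2.mem_mk_left _ _⟩
        · exact (hmvs _ _).2 ⟨_, WDI_mem.2 h2, rfl, Sym2.mem_mk_left _ _⟩
  refine ⟨c, hPEC, ?_, ?_, ?_⟩
  · intro e he v hv
    by_contra h
    refine ha2 _ (hrepI e he) ⟨v, (hmvs _ _).2 ⟨e, he, rfl, hv⟩, ?_⟩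
    rw [← hce]
    exact h
  all_goals
    intro i hi
    have hT : ∀ τ, (I.filter fun x => c x = i ∧ typ x = τ).card ≤ 10 * cnt τ / w + 1 := by
      intro τ
      refine le_trans (Finset.card_le_card ?_) (ha3 ⟨i, hi⟩ (Finset.mem_univ _) τ)
      intro x hx
      replace hx := WDI_mf hx
      refine WDI_fm ⟨hx.1, ?_, hx.2.2⟩
      have h1 := hx.2.1
      rw [hce, hIrep x hx.1] at h1
      exact Fin.ext h1
    have hPi : ((WDI_in W P).filter fun e => c e = i).card =
        (((WDI_in W P).image rep).filter fun e => c e = i).card := by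
      apply Finset.card_bij (fun e _ => rep e)
      · intro e he
        rw [Finset.mem_filter] at he ⊢
        refine ⟨Finset.mem_image_of_mem _ he.1, ?_⟩
        rw [hce, hIrep _ (hrepI e (Finset.mem_filter.1 he.1).1), ← hce]
        exact he.2
      · intro e he e' he' h
        exact hr2 e (Finset.mem_filter.1 he).1 e' (Finset.mem_filter.1 he').1 h
      · intro x hx
        rw [Finset.mem_filter, Finset.mem_image] at hx
        obtain ⟨⟨e, he, rfl⟩, hx2⟩ := hx
        refine ⟨e, Finset.mem_filter.2 ⟨he, ?_⟩, rfl⟩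
        rw [hce, hIrep _ (hrepI e (Finset.mem_filter.1 he).1), ← hce] at hx2
        exact hx2
    have hc1 : cnt 1 = (WDI_in W R).card - (WDI_in W P).card := by
      have h1 : (I.filter fun x => typ x = 1) = WDI_in W R \ (WDI_in W P).image rep := by
        ext x
        rw [Finset.mem_filter, Finset.mem_sdiff, ht1]
        constructor
        · rintro ⟨_, h⟩
          exact ⟨h.2, h.1⟩
        · rintro ⟨h1, h2⟩
          exact ⟨hRI x h1, h2, h1⟩
      have h2 : (WDI_in W P).image rep ⊆ WDI_in W R := by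
        intro x hx
        obtain ⟨e, he, rfl⟩ := Finset.mem_image.1 hx
        exact hr1 e he
      have h3 : ((WDI_in W P).image rep).card = (WDI_in W P).card :=
        Finset.card_image_of_injOn fun e he e' he' h =>
          hr2 e (Finset.mem_coe.1 he) e' (Finset.mem_coe.1 he') h
      rw [hcnt]
      dsimp only
      rw [h1, Finset.card_sdiff_of_subset h2, h3]
    have hc2 : cnt 2 ≤ (WDI_out W (P ∪ R)).card := by
      rw [hcnt]
      apply Finset.card_le_card
      intro x hx
      rw [Finset.mem_filter, ht2] at hx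
      exact hx.2.2.2
    have hcτ : ∀ τ, cnt τ ≤ (WDI_ed W).card := by
      intro τ
      rw [hcnt]
      refine (Finset.card_filter_le _ _).trans ?_
      rw [hI]
      exact Finset.card_filter_le _ _
    have hm : ∀ x y : ℕ, x ≤ y → 10 * x / w + 1 ≤ 10 * y / w + 1 := by
      intro x y h
      exact Nat.succ_le_succ (Nat.div_le_div_right (Nat.mul_le_mul_left 10 h))
  · -- the number of edges
    have hIi : (I.filter fun x => c x = i).card ≤ (10 * cnt 0 / w + 1) + (10 * cnt 1 / w + 1) +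
        (10 * cnt 2 / w + 1) + (10 * cnt 3 / w + 1) := by
      have h1 : (I.filter fun x => c x = i).card = ∑ τ ∈ Finset.range 4,
          (I.filter fun x => c x = i ∧ typ x = τ).card := by
        rw [Finset.card_eq_sum_card_fiberwise (f := typ) (t := Finset.range 4)
          (fun x _ => Finset.mem_coe.2 (Finset.mem_range.2 (htyp4 x)))]
        apply Finset.sum_congr rfl
        intro τ _
        rw [Finset.filter_filter]
      rw [h1, Finset.sum_range_succ, Finset.sum_range_succ, Finset.sum_range_succ,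
        Finset.sum_range_one]
      have := hT 0
      have := hT 1
      have := hT 2
      have := hT 3
      omega
    have h2 : ((WDI_ed W).filter fun e => c e = i).card ≤ 2 * (I.filter fun x => c x = i).card := by
      have h3 : ((WDI_ed W).filter fun e => c e = i) ⊆
          ((WDI_in W P).filter fun e => c e = i) ∪ (I.filter fun x => c x = i) := by
        intro e he
        rw [Finset.mem_filter] at he
        by_cases h : e ∈ WDI_in W P
        · exact Finset.mem_union_left _ (Finset.mem_filter.2 ⟨h, he.2⟩)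
        · apply Finset.mem_union_right
          rw [Finset.mem_filter, hI, Finset.mem_filter]
          exact ⟨⟨he.1, h⟩, he.2⟩
      have h4 : (((WDI_in W P).image rep).filter fun e => c e = i).card ≤
          (I.filter fun x => c x = i).card := by
        apply Finset.card_le_card
        apply Finset.filter_subset_filter
        intro x hx
        obtain ⟨e, he, rfl⟩ := Finset.mem_image.1 hx
        exact hRI _ (hr1 e he)
      have h5 := (Finset.card_le_card h3).trans (Finset.card_union_le _ _)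
      omega
    have h6 := hm _ _ (hcτ 0)
    have h7 := hm _ _ (hcτ 3)
    have h8 := hm _ _ hc2
    rw [hc1] at hIi
    omega
  · -- the balance
    rw [WDI_cov hPEC, WDI_cov hPEC]
    have h1 : (((∑ e ∈ (WDI_ed W).filter (fun e => c e = i), (P.filter fun v => v ∈ e).card : ℕ)
        : ℤ) - (∑ e ∈ (WDI_ed W).filter (fun e => c e = i), (R.filter fun v => v ∈ e).card : ℕ)) =
        ∑ e ∈ (WDI_ed W).filter (fun e => c e = i),
          (((P.filter fun v => v ∈ e).card : ℤ) - (R.filter fun v => v ∈ e).card) := by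
      rw [Finset.sum_sub_distrib]
      push_cast
      rfl
    rw [h1]
    have h2 : |∑ e ∈ (WDI_ed W).filter (fun e => c e = i),
          ((((P.filter fun v => v ∈ e).card : ℤ) - (R.filter fun v => v ∈ e).card) -
          (2 * (if e ∈ WDI_in W P then 1 else 0) - 2 * (if e ∈ WDI_in W R then 1 else 0)))| ≤
          ∑ e ∈ (WDI_ed W).filter (fun e => c e = i),
            (if e ∈ WDI_out W (P ∪ R) then 1 else 0 : ℤ) :=
      (Finset.abs_sum_le_sum_abs _ _).trans
        (Finset.sum_le_sum fun e he => WDI_diff hPR hin (Finset.mem_filter.1 he).1)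
    have e1 : (((WDI_ed W).filter fun e => c e = i).filter fun e => e ∈ WDI_in W P) =
        (WDI_in W P).filter fun e => c e = i := by
      ext e
      simp only [Finset.mem_filter]
      constructor
      · rintro ⟨⟨_, h⟩, h'⟩
        exact ⟨h', h⟩
      · rintro ⟨h', h⟩
        exact ⟨⟨(Finset.mem_filter.1 h').1, h⟩, h'⟩
    have e2 : (((WDI_ed W).filter fun e => c e = i).filter fun e => e ∈ WDI_in W R) =
        (WDI_in W R).filter fun e => c e = i := by
      ext e
      simp only [Finset.mem_filter]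
      constructor
      · rintro ⟨⟨_, h⟩, h'⟩
        exact ⟨h', h⟩
      · rintro ⟨h', h⟩
        exact ⟨⟨(Finset.mem_filter.1 h').1, h⟩, h'⟩
    have e3 : (((WDI_ed W).filter fun e => c e = i).filter fun e => e ∈ WDI_out W (P ∪ R)).card ≤
        10 * cnt 2 / w + 1 := by
      refine le_trans (Finset.card_le_card ?_) (hT 2)
      intro e he
      rw [Finset.mem_filter, Finset.mem_filter] at he
      obtain ⟨⟨he1, he2⟩, he3⟩ := he
      obtain ⟨b', hb', hbn⟩ := (Finset.mem_filter.1 he3).2.2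
      have hP : e ∉ WDI_in W P := fun h =>
        hbn (Finset.mem_union_left _ ((Finset.mem_filter.1 h).2 b' hb'))
      have hR : e ∉ WDI_in W R := fun h =>
        hbn (Finset.mem_union_right _ ((Finset.mem_filter.1 h).2 b' hb'))
      have hIm : e ∉ (WDI_in W P).image rep := by
        intro h
        obtain ⟨x, hx, rfl⟩ := Finset.mem_image.1 h
        exact hR (hr1 x hx)
      rw [Finset.mem_filter, hI, Finset.mem_filter]
      exact ⟨⟨he1, hP⟩, he2, (ht2 e).2 ⟨hIm, hR, he3⟩⟩
    have e4 : ((WDI_in W R).filter fun e => c e = i).card =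
        (((WDI_in W P).image rep).filter fun e => c e = i).card +
        (I.filter fun x => c x = i ∧ typ x = 1).card := by
      rw [← Finset.card_union_of_disjoint]
      · congr 1
        ext x
        simp only [Finset.mem_union, Finset.mem_filter]
        constructor
        · rintro ⟨h, h'⟩
          by_cases him : x ∈ (WDI_in W P).image rep
          · exact Or.inl ⟨him, h'⟩
          · exact Or.inr ⟨hRI x h, h', (ht1 x).2 ⟨him, h⟩⟩
        · rintro (⟨h, h'⟩ | ⟨h, h', h''⟩)
          · obtain ⟨e, he, rfl⟩ := Finset.mem_image.1 h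
            exact ⟨hr1 e he, h'⟩
          · exact ⟨((ht1 x).1 h'').2, h'⟩
      · rw [Finset.disjoint_left]
        intro x hx hx'
        rw [Finset.mem_filter] at hx hx'
        exact ((ht1 x).1 hx'.2.2).1 hx.1
    have hS : ∑ e ∈ (WDI_ed W).filter (fun e => c e = i),
          (2 * (if e ∈ WDI_in W P then 1 else 0) - 2 * (if e ∈ WDI_in W R then 1 else 0) : ℤ) =
          2 * (((WDI_in W P).filter fun e => c e = i).card : ℤ) -
          2 * (((WDI_in W R).filter fun e => c e = i).card : ℤ) := by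
      rw [Finset.sum_sub_distrib, ← Finset.mul_sum, ← Finset.mul_sum, Finset.sum_boole,
        Finset.sum_boole, e1, e2]
    rw [Finset.sum_sub_distrib, hS, Finset.sum_boole] at h2
    have h3 := hT 1
    rw [hc1] at h3
    have h4 := hm _ _ hc2
    have h5 := e3.trans h4
    have h6 : ((WDI_in W R).filter fun e => c e = i).card ≤
        ((WDI_in W P).filter fun e => c e = i).card +
        (10 * ((WDI_in W R).card - (WDI_in W P).card) / w + 1) := by omega
    have h7 : ((WDI_in W P).filter fun e => c e = i).card ≤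
        ((WDI_in W R).filter fun e => c e = i).card := by omega
    rw [abs_le] at h2 ⊢
    constructor
    · have := h2.1
      have h8 : (((WDI_in W R).filter fun e => c e = i).card : ℤ) ≤
        ((WDI_in W P).filter fun e => c e = i).card +
        (10 * ((WDI_in W R).card - (WDI_in W P).card : ℕ) / w + 1 : ℕ) := by exact_mod_cast h6
      have h9 : ((((WDI_ed W).filter fun e => c e = i).filter
        fun e => e ∈ WDI_out W (P ∪ R)).card : ℤ) ≤ (10 * (WDI_out W (P ∪ R)).card / w + 1 : ℕ) := by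
        exact_mod_cast h5
      linarith
    · have := h2.2
      have h8 : (((WDI_in W P).filter fun e => c e = i).card : ℤ) ≤
        ((WDI_in W R).filter fun e => c e = i).card := by exact_mod_cast h7
      have h9 : ((((WDI_ed W).filter fun e => c e = i).filter
        fun e => e ∈ WDI_out W (P ∪ R)).card : ℤ) ≤ (10 * (WDI_out W (P ∪ R)).card / w + 1 : ℕ) := by
        exact_mod_cast h5
      have h10 : (0 : ℤ) ≤ (10 * ((WDI_in W R).card - (WDI_in W P).card : ℕ) / w + 1 : ℕ) :=
        Int.natCast_nonneg _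
      linarith

theorem WDI_divle (x w : ℕ) (hw : 0 < w) : ((10 * x / w + 1 : ℕ) : ℝ) ≤ 10 * x / w + 1 := by
  push_cast
  have h := @Nat.cast_div_le ℝ _ _ _ (10 * x) w
  push_cast at h
  linarith

theorem WDI_mid (hG : GRA_stmt) (θ1 ε : ℝ) (h1 : 0 < θ1) (hε : 0 < ε) (W : SimpleGraph V)
    (P R : Finset V) (hPR : Disjoint P R) (hin : ∀ v v', W.Adj v v' → v ∈ P → v' ∉ R)
    (hle : (WDI_in W P).card ≤ (WDI_in W R).card) (w : ℕ) (Dm : ℕ → V → V) (s : ℝ)
    (hN1 : 10 ≤ θ1 * Fintype.card V) (hN2 : 32 ≤ ε * Fintype.card V)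
    (hw1 : θ1 * Fintype.card V ≤ w)
    (hd : ∀ v, (dg W v : ℝ) ≤ min (θ1 / 40) (ε * θ1 / 160) * Fintype.card V)
    (hb : ∀ v, (((Finset.range w).filter fun i => Dm i v ≠ v).card : ℝ) ≤
      θ1 / 10 * Fintype.card V) (hs0 : 0 ≤ s)
    (hs : (ep W R R : ℝ) - ep W P P ≤ s) (ho : (ep W (P ∪ R) (P ∪ R)ᶜ : ℝ) ≤ s) :
    ∃ E : ℕ → V → V, (∀ i < w, MatIn W (E i)) ∧ (∀ v v', W.Adj v v' → ∃ i < w, E i v = v') ∧
      (∀ i < w, ∀ j < w, i ≠ j → ∀ v, E i v ≠ v → E i v ≠ E j v) ∧
      (∀ i < w, ∀ v, Dm i v ≠ v → E i v = v) ∧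
      (∀ i < w, ((Finset.univ.filter fun v => E i v ≠ v).card : ℝ) ≤ ε * Fintype.card V) ∧
      ∀ i < w, |((P.filter fun x => E i x ≠ x).card : ℝ) -
        (R.filter fun x => E i x ≠ x).card| ≤ 40 * s / w + 10 := by
  obtain ⟨N, hN⟩ : ∃ N : ℝ, N = Fintype.card V := ⟨_, rfl⟩
  rw [← hN] at hN1 hN2 hw1 hd hb
  have hN0 : 0 < N := by
    by_contra h
    have : θ1 * N ≤ 0 := mul_nonpos_of_nonneg_of_nonpos h1.le (not_lt.1 h)
    linarith
  have hw0 : (0 : ℝ) < w := by linarith
  have hw0' : 0 < w := by exact_mod_cast hw0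
  have hd1 : ∀ v, (dg W v : ℝ) ≤ θ1 / 40 * N := fun v =>
    (hd v).trans (mul_le_mul_of_nonneg_right (min_le_left _ _) hN0.le)
  have hd2 : ∀ v, (dg W v : ℝ) ≤ ε * θ1 / 160 * N := fun v =>
    (hd v).trans (mul_le_mul_of_nonneg_right (min_le_right _ _) hN0.le)
  have hdn : ∀ v, dg W v ≤ ⌊θ1 / 40 * N⌋₊ := fun v => Nat.le_floor (hd1 v)
  have hbn : ∀ v, ((Finset.range w).filter fun i => Dm i v ≠ v).card ≤ ⌊θ1 / 10 * N⌋₊ :=
    fun v => Nat.le_floor (hb v)
  have hwn : 4 * ⌊θ1 / 40 * N⌋₊ + 4 * ⌊θ1 / 10 * N⌋₊ + (w / 10 + 1) < w := by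
    have e1 : (⌊θ1 / 40 * N⌋₊ : ℝ) ≤ θ1 / 40 * N := Nat.floor_le (by positivity)
    have e2 : (⌊θ1 / 10 * N⌋₊ : ℝ) ≤ θ1 / 10 * N := Nat.floor_le (by positivity)
    have e3 : ((w / 10 : ℕ) : ℝ) ≤ w / 10 := by
      have := @Nat.cast_div_le ℝ _ _ _ w 10
      push_cast at this
      exact this
    have e4 : (4 * ⌊θ1 / 40 * N⌋₊ + 4 * ⌊θ1 / 10 * N⌋₊ + ((w / 10 : ℕ) + 1) : ℝ) < w := by
      nlinarith
    exact_mod_cast e4
  obtain ⟨c, hc, hc1, hc2, hc3⟩ := WDI_core hG W P R hPR hin hle w Dm _ _ hdn hbn hwn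
  -- numbers of edges
  have hed : (2 * (WDI_ed W).card : ℝ) ≤ N * (ε * θ1 / 160 * N) := by
    have e1 : (2 * (WDI_ed W).card : ℝ) = ∑ v, (dg W v : ℝ) := by
      have := WDI_ed_card W
      exact_mod_cast this
    rw [e1]
    refine (Finset.sum_le_sum fun v _ => hd2 v).trans ?_
    rw [Finset.sum_const, Finset.card_univ, nsmul_eq_mul, ← hN]
  have hedw : 10 * ((WDI_ed W).card : ℝ) / w ≤ ε / 32 * N := by
    rw [div_le_iff₀ hw0]
    have : ε / 32 * N * (θ1 * N) ≤ ε / 32 * N * w :=
      mul_le_mul_of_nonneg_left hw1 (by positivity)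
    nlinarith
  have hRed : (WDI_in W R).card - (WDI_in W P).card ≤ (WDI_ed W).card :=
    (Nat.sub_le _ _).trans (Finset.card_filter_le _ _)
  have hOed : (WDI_out W (P ∪ R)).card ≤ (WDI_ed W).card := Finset.card_filter_le _ _
  have hm : ∀ x y : ℕ, x ≤ y → 10 * x / w + 1 ≤ 10 * y / w + 1 := by
    intro x y h
    exact Nat.succ_le_succ (Nat.div_le_div_right (Nat.mul_le_mul_left 10 h))
  have hdiff : (((WDI_in W R).card - (WDI_in W P).card : ℕ) : ℝ) ≤ s / 2 := by
    rw [Nat.cast_sub hle]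
    rw [WDI_ep_in, WDI_ep_in] at hs
    push_cast at hs
    linarith
  have hout : ((WDI_out W (P ∪ R)).card : ℝ) ≤ s := by
    rw [WDI_ep_out] at ho
    exact ho
  refine ⟨ptn W c, fun i _ => WDI_mat hc i, ?_, ?_, ?_, ?_, ?_⟩
  · intro v v' h
    exact ⟨c s(v, v'), hc.1 v v' h, WDI_ptn hc h rfl⟩
  · intro i _ j _ hij v hv h
    obtain ⟨h2, h3⟩ := WDI_ptn_ne hv
    have hj : ptn W c j v ≠ v := by
      rw [← h]
      exact hv
    obtain ⟨-, h4⟩ := WDI_ptn_ne hj
    rw [← h] at h4
    exact hij (h3.symm.trans h4)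
  · intro i _ v hv
    by_contra h
    obtain ⟨h2, h3⟩ := WDI_ptn_ne h
    have h4 := hc1 _ (WDI_mem.2 h2) v (Sym2.mem_mk_left _ _)
    rw [h3] at h4
    exact hv h4
  · intro i hi
    rw [WDI_cov hc i Finset.univ]
    have e1 : (∑ e ∈ (WDI_ed W).filter (fun e => c e = i),
        (Finset.univ.filter fun v => v ∈ e).card) ≤
        ((WDI_ed W).filter fun e => c e = i).card * 2 := by
      rw [← smul_eq_mul]
      exact Finset.sum_le_card_nsmul _ _ _ fun e _ => WDI_le_two e _
    have e2 := hc2 i hi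
    have e3 := hm _ _ hRed
    have e4 := hm _ _ hOed
    have e5 : (∑ e ∈ (WDI_ed W).filter (fun e => c e = i),
        (Finset.univ.filter fun v => v ∈ e).card) ≤ 16 * (10 * (WDI_ed W).card / w + 1) := by
      omega
    have e6 : ((∑ e ∈ (WDI_ed W).filter (fun e => c e = i),
        (Finset.univ.filter fun v => v ∈ e).card : ℕ) : ℝ) ≤
        16 * ((10 * (WDI_ed W).card / w + 1 : ℕ) : ℝ) := by exact_mod_cast e5
    have e7 := WDI_divle (WDI_ed W).card w hw0'
    rw [← hN]
    linarith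
  · intro i hi
    have e1 := hc3 i hi
    have e2 : |((P.filter fun x => ptn W c i x ≠ x).card : ℝ) -
        (R.filter fun x => ptn W c i x ≠ x).card| ≤
        2 * ((10 * ((WDI_in W R).card - (WDI_in W P).card) / w + 1 : ℕ) : ℝ) +
        ((10 * (WDI_out W (P ∪ R)).card / w + 1 : ℕ) : ℝ) := by
      have e0 := (Int.cast_le (R := ℝ)).2 e1
      rw [Int.cast_abs, Int.cast_sub, Int.cast_natCast, Int.cast_natCast, Int.cast_add,
        Int.cast_mul, Int.cast_natCast, Int.cast_natCast, Int.cast_ofNat] at e0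
      exact e0
    have e3 := WDI_divle ((WDI_in W R).card - (WDI_in W P).card) w hw0'
    have e4 := WDI_divle (WDI_out W (P ∪ R)).card w hw0'
    have e5 : 10 * (((WDI_in W R).card - (WDI_in W P).card : ℕ) : ℝ) / w ≤ 5 * s / w :=
      div_le_div_of_nonneg_right (by linarith) hw0.le
    have e6 : 10 * ((WDI_out W (P ∪ R)).card : ℝ) / w ≤ 10 * s / w :=
      div_le_div_of_nonneg_right (by linarith) hw0.le
    have e7 : 40 * s / w = 2 * (5 * s / w) + 10 * s / w + 20 * s / w := by ring
    have e8 : 0 ≤ 20 * s / w := by positivity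
    linarith

theorem WDI (hG : GRA_stmt) : WDI_stmt := by
  intro θ1 ε h1 hε
  refine ⟨min (θ1 / 40) (ε * θ1 / 160), ⌈10 / θ1⌉₊ + ⌈32 / ε⌉₊, by positivity, ?_⟩
  intro V _ W C A X w r Dm s hN hw1 hw2 hWA hWd hD hs0 hs hso
  have hNr : ((⌈10 / θ1⌉₊ + ⌈32 / ε⌉₊ : ℕ) : ℝ) ≤ Fintype.card V := by exact_mod_cast hN
  push_cast at hNr
  have g1 : 10 / θ1 ≤ ⌈10 / θ1⌉₊ := Nat.le_ceil _
  have g2 : 32 / ε ≤ ⌈32 / ε⌉₊ := Nat.le_ceil _
  have g3 : (0 : ℝ) ≤ ⌈10 / θ1⌉₊ := Nat.cast_nonneg _
  have g4 : (0 : ℝ) ≤ ⌈32 / ε⌉₊ := Nat.cast_nonneg _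
  have hN1 : 10 ≤ θ1 * Fintype.card V := by
    have : 10 / θ1 ≤ Fintype.card V := by linarith
    rw [div_le_iff₀ h1] at this
    linarith
  have hN2 : 32 ≤ ε * Fintype.card V := by
    have : 32 / ε ≤ Fintype.card V := by linarith
    rw [div_le_iff₀ hε] at this
    linarith
  have hXA : (X ∩ A) ∪ (X \ A) = X := by
    ext v
    simp only [Finset.mem_union, Finset.mem_inter, Finset.mem_sdiff]
    tauto
  have hXB : (X \ A) ∪ (X ∩ A) = X := by rw [Finset.union_comm, hXA]
  have hdis : Disjoint (X ∩ A) (X \ A) := by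
    rw [Finset.disjoint_left]
    intro v hv hv'
    exact (Finset.mem_sdiff.1 hv').2 (Finset.mem_inter.1 hv).2
  rw [abs_le] at hs
  rcases le_total (WDI_in W (X ∩ A)).card (WDI_in W (X \ A)).card with hle | hle
  · refine WDI_mid hG θ1 ε h1 hε W (X ∩ A) (X \ A) hdis ?_ hle w Dm s hN1 hN2 hw1 hWd hD.ld hs0
      (by linarith [hs.1]) (by rw [hXA]; exact hso)
    intro v v' h hv hv'
    exact (Finset.mem_sdiff.1 hv').2 ((hWA v v' h).1 (Finset.mem_inter.1 hv).2)
  · obtain ⟨E, t1, t2, t3, t4, t5, t6⟩ := WDI_mid hG θ1 ε h1 hε W (X \ A) (X ∩ A) hdis.symm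
      (by
        intro v v' h hv hv'
        exact (Finset.mem_sdiff.1 hv).2 ((hWA v v' h).2 (Finset.mem_inter.1 hv').2))
      hle w Dm s hN1 hN2 hw1 hWd hD.ld hs0 (by linarith [hs.2]) (by rw [hXB]; exact hso)
    refine ⟨E, t1, t2, t3, t4, t5, fun i hi => ?_⟩
    rw [abs_sub_comm]
    exact t6 i hi

end

end Pool.Agent.OF
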